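import Mathlib

/-!
# The small transfinite dimension

It is defined by recursion on ordinals, literally as in the text of MP_0764dd_gt, for topological
spaces (a subset of a space is a space with the subspace topology).
-/

set_option autoImplicit false

namespace Pool.Agent.Helper63.Trind

universe u v

/-- `trind X ≤ α`: for every `x ∈ X` and every open `V ∋ x` there is an open `U` with
`x ∈ U ⊆ V` and `trind (∂U) < α`, that is, the boundary `∂U` is empty (`trind = -1`), or
`trind (∂U) ≤ β` for some ordinal `β < α`.  Here `∂U` has the subspace topology. -/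
def TrindLE (α : Ordinal.{v}) (X : Type u) [TopologicalSpace X] : Prop :=
  ∀ (x : X) (V : Set X), IsOpen V → x ∈ V →
    ∃ U : Set X, IsOpen U ∧ x ∈ U ∧ U ⊆ V ∧
      (frontier U = ∅ ∨ ∃ (β : Ordinal.{v}) (_ : β < α), TrindLE β (frontier U))
termination_by α

/-- `X` has small transfinite dimension: `trind X ≤ α` for some ordinal `α`. -/
def HasTrind (X : Type u) [TopologicalSpace X] : Prop := ∃ α : Ordinal.{v}, TrindLE α X

end Pool.Agent.Helper63.Trind
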