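import Pool.Agent.Helper63.MainClaim
import Pool.Agent.Helper63.Trind.Defs

/-!
# Proof of the negative answer with the recursive definition of the small transfinite dimension
-/

set_option autoImplicit false

open Set Filter Topology

namespace Pool.Agent.Helper63.Trind

universe u v w

theorem trindLE_iff (α : Ordinal.{v}) (X : Type u) [TopologicalSpace X] :
    TrindLE α X ↔ ∀ (x : X) (V : Set X), IsOpen V → x ∈ V →
      ∃ U : Set X, IsOpen U ∧ x ∈ U ∧ U ⊆ V ∧
        (frontier U = ∅ ∨ ∃ (β : Ordinal.{v}) (_ : β < α), TrindLE β (frontier U)) := by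
  rw [TrindLE]

/-- invariance under homeomorphisms -/
theorem TrindLE.homeo (α : Ordinal.{v}) : ∀ (X : Type u) [TopologicalSpace X] (Y : Type w)
    [TopologicalSpace Y], (X ≃ₜ Y) → TrindLE α X → TrindLE α Y := by
  induction α using WellFoundedLT.induction with
  | _ α IH =>
    intro X _ Y _ e h
    rw [trindLE_iff] at h ⊢
    intro y V hV hy
    obtain ⟨U, hU, hxU, hUV, hf⟩ := h (e.symm y) (e ⁻¹' V) (hV.preimage e.continuous)
      (by rw [mem_preimage, e.apply_symm_apply]; exact hy)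
    refine ⟨e '' U, e.isOpenMap U hU, ⟨e.symm y, hxU, e.apply_symm_apply y⟩, ?_, ?_⟩
    · rintro _ ⟨z, hz, rfl⟩
      exact hUV hz
    · rw [← e.image_frontier]
      rcases hf with hf | ⟨β, hβ, hf⟩
      · left
        rw [hf, image_empty]
      · right
        exact ⟨β, hβ, IH β hβ _ _ (e.image (frontier U)) hf⟩

/-- a zero-dimensional subset -/
theorem trindLE_zero_of_zd {X : Type u} [TopologicalSpace X] (A : Set X)
    (h : ∀ a ∈ A, Pool.Agent.Helper63.zdFilter A a ≤ 𝓝 a) : TrindLE (0 : Ordinal.{v}) A := by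
  rw [trindLE_iff]
  rintro ⟨x, hx⟩ V hV hxV
  obtain ⟨V', hV', rfl⟩ := isOpen_induced_iff.1 hV
  obtain ⟨U, E, h1, h2, h3, h4, h5, h6⟩ := h x hx (hV'.mem_nhds hxV)
  have he : (Subtype.val ⁻¹' U : Set A) = Subtype.val ⁻¹' E := by
    ext z
    exact ⟨fun hz => h4 hz, fun hz => h5 ⟨hz, z.2⟩⟩
  have hc : IsClopen (Subtype.val ⁻¹' U : Set A) := by
    refine ⟨?_, h1.preimage continuous_subtype_val⟩
    rw [he]
    exact h2.preimage continuous_subtype_val
  exact ⟨Subtype.val ⁻¹' U, hc.isOpen, h3, fun z hz => h6 ⟨hz, z.2⟩, Or.inl hc.frontier_eq⟩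

section Rank

variable {X : Type} [TopologicalSpace X]

/-- the least value, shifted by one -/
noncomputable def rho (S : Set X) : Ordinal.{v} := by
  classical
  exact if S = ∅ then 0 else Order.succ (sInf {α : Ordinal.{v} | TrindLE α S})

theorem rho_empty : rho.{v} (∅ : Set X) = 0 := by
  classical
  unfold rho
  rw [if_pos rfl]

theorem rho_of_nonempty {S : Set X} (h : S ≠ ∅) :
    rho.{v} S = Order.succ (sInf {α : Ordinal.{v} | TrindLE α S}) := by
  classical
  unfold rho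
  rw [if_neg h]

theorem val_image_frontier (S U : Set X) (hU : IsOpen U) :
    Subtype.val '' (frontier (Subtype.val ⁻¹' U : Set S)) = (S ∩ closure (U ∩ S)) \ U := by
  have h1 : IsOpen (Subtype.val ⁻¹' U : Set S) := hU.preimage continuous_subtype_val
  rw [h1.frontier_eq]
  ext z
  constructor
  · rintro ⟨y, ⟨hy1, hy2⟩, rfl⟩
    refine ⟨⟨y.2, ?_⟩, hy2⟩
    rw [closure_subtype, Subtype.image_preimage_coe, inter_comm] at hy1
    exact hy1
  · rintro ⟨⟨hz1, hz2⟩, hz3⟩
    refine ⟨⟨z, hz1⟩, ⟨?_, hz3⟩, rfl⟩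
    rw [closure_subtype, Subtype.image_preimage_coe, inter_comm]
    exact hz2

/-- a space with small transfinite dimension has a family of subsets with a rank function -/
theorem family (α : Ordinal.{v}) (h : TrindLE α X) :
    ∃ (𝒮 : Set (Set X)) (g : Set X → Ordinal.{0}), (univ : Set X) ∈ 𝒮 ∧
      ∀ S ∈ 𝒮, ∀ x ∈ S, ∀ V : Set X, IsOpen V → x ∈ V →
        ∃ U : Set X, IsOpen U ∧ x ∈ U ∧ U ∩ S ⊆ V ∧
          ((S ∩ closure (U ∩ S)) \ U) ∈ 𝒮 ∧ g ((S ∩ closure (U ∩ S)) \ U) < g S := by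
  classical
  have hwf : IsWellFounded (Set X) (fun T S : Set X => rho.{v} T < rho.{v} S) :=
    ⟨InvImage.wf rho.{v} wellFounded_lt⟩
  refine ⟨{S | ∃ α : Ordinal.{v}, TrindLE α S}, fun S => IsWellFounded.rank (fun T S : Set X => rho.{v} T < rho.{v} S) S, ?_, ?_⟩
  · exact ⟨α, TrindLE.homeo α _ _ (Homeomorph.Set.univ X).symm h⟩
  · intro S hS x hx V hV hxV
    have hne : S ≠ ∅ := by
      rintro rfl
      exact hx
    have hS' : TrindLE (sInf {α : Ordinal.{v} | TrindLE α S}) S :=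
      csInf_mem (s := {α : Ordinal.{v} | TrindLE α S}) hS
    rw [trindLE_iff] at hS'
    obtain ⟨U', hU', hxU, hUV, hf⟩ := hS' ⟨x, hx⟩ (Subtype.val ⁻¹' V)
      (hV.preimage continuous_subtype_val) hxV
    obtain ⟨U, hU, rfl⟩ := isOpen_induced_iff.1 hU'
    have key : (∃ β : Ordinal.{v}, TrindLE β ((S ∩ closure (U ∩ S)) \ U : Set X)) ∧
        rho.{v} ((S ∩ closure (U ∩ S)) \ U) < rho.{v} S := by
      rw [← val_image_frontier S U hU, rho_of_nonempty hne]
      rcases hf with hf | ⟨β, hβ, hf⟩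
      · rw [hf, image_empty, rho_empty]
        refine ⟨⟨0, ?_⟩, zero_le.trans_lt (Order.lt_succ _)⟩
        rw [trindLE_iff]
        rintro ⟨z, hz⟩
        exact absurd hz (notMem_empty z)
      · have h1 : TrindLE β (Subtype.val '' (frontier (Subtype.val ⁻¹' U : Set S)) : Set X) :=
          TrindLE.homeo β _ _ (Topology.IsEmbedding.subtypeVal.homeomorphImage _) hf
        refine ⟨⟨β, h1⟩, ?_⟩
        by_cases h0 : (Subtype.val '' (frontier (Subtype.val ⁻¹' U : Set S)) : Set X) = ∅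
        · rw [h0, rho_empty]
          exact zero_le.trans_lt (Order.lt_succ _)
        · rw [rho_of_nonempty h0]
          refine Order.succ_lt_succ (lt_of_le_of_lt (csInf_le' ?_) hβ)
          exact h1
    refine ⟨U, hU, hxU, ?_, key.1, IsWellFounded.rank_lt_of_rel (r := fun T S : Set X => rho.{v} T < rho.{v} S) key.2⟩
    rintro z ⟨hz1, hz2⟩
    exact hUV (show (⟨z, hz2⟩ : S) ∈ (Subtype.val ⁻¹' U : Set S) from hz1)

end Rank

theorem counterexample0 : ∃ (X : Type) (_ : TopologicalSpace X) (_ : CompactSpace X)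
    (_ : T2Space X) (A : ℕ → Set X), (⋃ n, A n) = univ ∧
      (∀ n, TrindLE (0 : Ordinal.{v}) (A n)) ∧ ¬ HasTrind.{0, v} X := by
  obtain ⟨W, _, _, f, hf, hW⟩ := Pool.Agent.Helper63.exists_W
  obtain ⟨w0, -⟩ := hW ∅ countable_empty
  have : Nonempty W := ⟨w0⟩
  obtain ⟨e, he⟩ := exists_surjective_nat (Option (ℕ × Bool))
  let A' : Option (ℕ × Bool) → Set (Pool.Agent.Helper63.XSp f) := fun o => match o with
    | none => Pool.Agent.Helper63.pInf f
    | some (n, true) => Pool.Agent.Helper63.pFin f n (range ((↑) : ℚ → ℝ))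
    | some (n, false) => Pool.Agent.Helper63.pFin f n {x | Irrational x}
  refine ⟨Pool.Agent.Helper63.XSp f, inferInstance, inferInstance, inferInstance,
    fun n => A' (e n), ?_, ?_, ?_⟩
  · refine eq_univ_of_forall fun z => ?_
    rw [mem_iUnion]
    rcases Pool.Agent.Helper63.cover z with h | ⟨n, h | h⟩
    · obtain ⟨i, hi⟩ := he none
      exact ⟨i, by simpa only [hi] using h⟩
    · obtain ⟨i, hi⟩ := he (some (n, true))
      exact ⟨i, by simpa only [hi] using h⟩
    · obtain ⟨i, hi⟩ := he (some (n, false))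
      exact ⟨i, by simpa only [hi] using h⟩
  · intro n
    apply trindLE_zero_of_zd
    change ∀ a ∈ A' (e n), Pool.Agent.Helper63.zdFilter (A' (e n)) a ≤ 𝓝 a
    rcases e n with _ | ⟨n, _ | _⟩
    · exact Pool.Agent.Helper63.zd_pInf
    · refine Pool.Agent.Helper63.zd_pFin n ?_
      refine Dense.mono ?_ (Rat.denseRange_cast (𝕜 := ℝ))
      rintro _ ⟨q, rfl⟩
      simp
    · refine Pool.Agent.Helper63.zd_pFin n ?_
      exact dense_irrational
  · rintro ⟨α, hα⟩
    obtain ⟨𝒮, g, hu, h⟩ := family α hα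
    obtain ⟨M, hM⟩ := Pool.Agent.Helper63.main_claim hW hf 𝒮 g h _ univ hu rfl isClosed_univ 0 0
      (fun _ => Pool.Agent.Helper63.jpt f 0) (fun i hi => absurd hi (Nat.not_lt_zero i))
    have : Nonempty (Pool.Agent.Helper63.PSp f) := ⟨Pool.Agent.Helper63.jpt f 0⟩
    rw [preimage_univ, Pool.Agent.Helper63.secw_zero, Pool.Agent.Helper63.star_univ] at hM
    exact Pool.Agent.Helper63.not_Wd_univ M hM

theorem main : ∃ (X : Type u) (_ : TopologicalSpace X), CompactSpace X ∧ T2Space X ∧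
    ∃ A : ℕ → Set X, (⋃ n, A n) = univ ∧ (∀ n, TrindLE (0 : Ordinal.{v}) (A n)) ∧
      ¬ HasTrind.{u, v} X := by
  obtain ⟨X, _, _, _, A, h1, h2, h3⟩ := counterexample0.{v}
  let e : X ≃ₜ ULift.{u, 0} X := Homeomorph.ulift.symm
  refine ⟨ULift.{u, 0} X, inferInstance, e.compactSpace, e.t2Space, fun n => e '' (A n),
    ?_, ?_, ?_⟩
  · rw [← image_iUnion, h1, image_univ, e.range_coe]
  · intro n
    exact TrindLE.homeo 0 _ _ (e.image (A n)) (h2 n)
  · rintro ⟨α, hα⟩
    exact h3 ⟨α, TrindLE.homeo α _ _ e.symm hα⟩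

end Pool.Agent.Helper63.Trind
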